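import Pool.Agent.J4H27.GC.Defs2

/-!
# GC (11): coefficients of products of power series in different variables
-/

set_option autoImplicit false
set_option linter.unusedSectionVars false

open Pool.Agent.J4H27.GC

namespace Pool.Agent.J4H49.GC

variable {K : Type} [Field K] {σ : Type} [Fintype σ] [DecidableEq σ]

lemma coeff_tmv_single (i : σ) (g : PowerSeries K) (n : ℕ) :
    MvPowerSeries.coeff (Finsupp.single i n) (g.toMvPowerSeries i) = PowerSeries.coeff n g := by
  have h := MvPowerSeries.coeff_embDomain_rename (Function.Embedding.punit i) (R := K) g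
    (Finsupp.single () n)
  rw [Finsupp.embDomain_single] at h
  exact h

lemma coeff_tmv_zero (i : σ) (g : PowerSeries K) (u : σ →₀ ℕ) (hu : u ≠ Finsupp.single i (u i)) :
    MvPowerSeries.coeff u (g.toMvPowerSeries i) = 0 := by
  rw [PowerSeries.toMvPowerSeries_apply]
  apply MvPowerSeries.coeff_rename_eq_zero
  rintro ⟨v, hv⟩
  apply hu
  have h1 : v = Finsupp.single () (v ()) := by
    ext
    simp
  rw [h1, Finsupp.mapDomain_single] at hv
  rw [← hv]
  simp

theorem t_COEF : S_COEF := by
  intro K _ σ _ _ g s
  rw [MvPowerSeries.coeff_prod]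
  rw [Finset.sum_eq_single (Finsupp.equivFunOnFinite.symm fun i => Finsupp.single i (s i))]
  · apply Finset.prod_congr rfl
    intro i _
    simp only [Finsupp.equivFunOnFinite_symm_apply_apply]
    exact coeff_tmv_single i (g i) (s i)
  · intro l hl hne
    have hsum := (Finset.mem_finsuppAntidiag.mp hl).1
    by_contra hprod
    apply hne
    have hall : ∀ i, l i = Finsupp.single i (l i i) := by
      intro i
      by_contra hi
      exact hprod (Finset.prod_eq_zero (Finset.mem_univ i) (coeff_tmv_zero i (g i) (l i) hi))
    have hval : ∀ i, l i i = s i := by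
      intro i
      rw [← hsum, Finsupp.finsetSum_apply]
      rw [Finset.sum_eq_single i]
      · intro j _ hj
        rw [hall j, Finsupp.single_apply, if_neg hj]
      · intro h
        exact absurd (Finset.mem_univ i) h
    ext i : 1
    simp only [Finsupp.equivFunOnFinite_symm_apply_apply]
    rw [hall i, hval i]
  · intro h
    exfalso
    apply h
    rw [Finset.mem_finsuppAntidiag]
    refine ⟨?_, fun i _ => Finset.mem_univ i⟩
    ext j
    rw [Finsupp.finsetSum_apply, Finset.sum_eq_single j]
    · simp
    · intro i _ hi
      simp only [Finsupp.equivFunOnFinite_symm_apply_apply]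
      rw [Finsupp.single_apply, if_neg hi]
    · intro h
      exact absurd (Finset.mem_univ j) h

end Pool.Agent.J4H49.GC
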