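import Pool.Agent.J4H27.GC.Defs2

/-!
# GC (9): formulas for `2 ^ k P` and `x (P + 2 ^ k Q)`
-/

set_option autoImplicit false
set_option linter.unusedSectionVars false
set_option linter.unusedVariables false

open WeierstrassCurve Pool.Agent.TH942 Pool.Agent.J4H27.GC

namespace Pool.Agent.J4H49.GC

variable {K : Type} [Field K]

lemma phi_succ (a b : K) (k : ℕ) (x : K) :
    (phi a b (k + 1)).eval x = ((phi a b k).eval x) ^ 4
      - 2 * a * ((phi a b k).eval x) ^ 2 * ((psi a b k).eval x) ^ 2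
      - 8 * b * (phi a b k).eval x * ((psi a b k).eval x) ^ 3
      + a ^ 2 * ((psi a b k).eval x) ^ 4 := by
  simp only [phi, psi, dp, Polynomial.eval_add, Polynomial.eval_sub, Polynomial.eval_mul,
    Polynomial.eval_pow, Polynomial.eval_C, Polynomial.eval_ofNat]

lemma psi_succ (a b : K) (k : ℕ) (x : K) :
    (psi a b (k + 1)).eval x = 4 * (psi a b k).eval x * (((phi a b k).eval x) ^ 3
      + a * (phi a b k).eval x * ((psi a b k).eval x) ^ 2
      + b * ((psi a b k).eval x) ^ 3) := by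
  simp only [phi, psi, dp, Polynomial.eval_add, Polynomial.eval_mul,
    Polynomial.eval_pow, Polynomial.eval_C, Polynomial.eval_ofNat]

lemma om_succ (a b : K) (k : ℕ) (x : K) :
    (om a b (k + 1)).eval x = 2 * (om a b k).eval x * (((phi a b k).eval x) ^ 6
      + 5 * a * ((phi a b k).eval x) ^ 4 * ((psi a b k).eval x) ^ 2
      + 20 * b * ((phi a b k).eval x) ^ 3 * ((psi a b k).eval x) ^ 3
      - 5 * a ^ 2 * ((phi a b k).eval x) ^ 2 * ((psi a b k).eval x) ^ 4
      - 4 * a * b * (phi a b k).eval x * ((psi a b k).eval x) ^ 5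
      - (8 * b ^ 2 + a ^ 3) * ((psi a b k).eval x) ^ 6) := by
  simp only [om, Polynomial.eval_add, Polynomial.eval_sub, Polynomial.eval_mul,
    Polynomial.eval_pow, Polynomial.eval_C, Polynomial.eval_ofNat]

variable [DecidableEq K]

lemma some_congr {a b x y x' y' : K} (h : (sw a b).toAffine.Nonsingular x y)
    (hx : x = x') (hy : y = y') :
    ∃ h', (Affine.Point.some x y h : SPt a b) = Affine.Point.some x' y' h' := by
  subst hx hy
  exact ⟨h, rfl⟩

variable [CharZero K]

/-- doubling -/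
lemma dbl {a b x y : K} (h : (sw a b).toAffine.Nonsingular x y)
    (h2 : (Affine.Point.some x y h : SPt a b) + Affine.Point.some x y h ≠ 0) :
    y ≠ 0 ∧ ∃ h', (Affine.Point.some x y h : SPt a b) + Affine.Point.some x y h =
      Affine.Point.some ((x ^ 4 - 2 * a * x ^ 2 - 8 * b * x + a ^ 2) / (4 * y ^ 2))
        ((x ^ 6 + 5 * a * x ^ 4 + 20 * b * x ^ 3 - 5 * a ^ 2 * x ^ 2 - 4 * a * b * x
          - 8 * b ^ 2 - a ^ 3) / (8 * y ^ 3)) h' := by
  have hy : y ≠ 0 := by
    intro hy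
    subst hy
    apply h2
    apply Affine.Point.add_self_of_Y_eq
    simp [Affine.negY, sw]
  refine ⟨hy, ?_⟩
  have hy' : y ≠ (sw a b).toAffine.negY x y := by
    simp only [Affine.negY, sw]
    intro hh
    apply hy
    have h2 : (2 : K) * y = 0 := by linear_combination hh
    rcases mul_eq_zero.mp h2 with h3 | h3
    · norm_num at h3
    · exact h3
  have e' := sw_eqn.mp h.1
  rw [Affine.Point.add_self_of_Y_ne hy']
  apply some_congr
  · rw [Affine.slope_of_Y_ne rfl hy', Affine.addX]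
    simp only [sw, Affine.negY]
    have e3' : y - (-y - 0 * x - 0) = 2 * y := by ring
    rw [e3']
    field_simp
    ring_nf
    ring_nf at e'
    linear_combination (-32 * x) * e'
  · rw [Affine.slope_of_Y_ne rfl hy', Affine.addY, Affine.negAddY, Affine.addX]
    simp only [sw, Affine.negY]
    have e3' : y - (-y - 0 * x - 0) = 2 * y := by ring
    rw [e3']
    field_simp
    ring_nf
    ring_nf at e'
    linear_combination (-64 * y ^ 2 + 32 * x * a + 224 * x ^ 3 - 64 * b) * e'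

/-- the key identity for `om` -/
lemma om_sq {a b x y : K} {p q o : K} (hq : q ≠ 0)
    (h : (y * o / q ^ 2) ^ 2 = (p / q) ^ 3 + a * (p / q) + b) :
    y ^ 2 * o ^ 2 = q * (p ^ 3 + a * p * q ^ 2 + b * q ^ 3) := by
  field_simp at h
  linear_combination h

lemma alg_x {a b y p q o G : K} (hq : q ≠ 0) (hy : y ≠ 0) (ho : o ≠ 0) (hG : G ≠ 0)
    (e : y ^ 2 * o ^ 2 = q * G) :
    ((p / q) ^ 4 - 2 * a * (p / q) ^ 2 - 8 * b * (p / q) + a ^ 2) / (4 * (y * o / q ^ 2) ^ 2) =
      (p ^ 4 - 2 * a * p ^ 2 * q ^ 2 - 8 * b * p * q ^ 3 + a ^ 2 * q ^ 4) / (4 * q * G) := by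
  have h1 : (y * o / q ^ 2) ^ 2 = q * G / q ^ 4 := by
    rw [div_pow, mul_pow, e]
    ring
  rw [h1]
  field_simp

lemma alg_y {y q o G N : K} (hq : q ≠ 0) (hy : y ≠ 0) (ho : o ≠ 0) (hG : G ≠ 0)
    (e : y ^ 2 * o ^ 2 = q * G) :
    N / q ^ 6 / (8 * (y * o / q ^ 2) ^ 3) = y * (2 * o * N) / (4 * q * G) ^ 2 := by
  have h1 : (y * o / q ^ 2) ^ 3 = (y * o / q ^ 2) * (q * G / q ^ 4) := by
    rw [pow_succ' (y * o / q ^ 2) 2, div_pow (y * o) (q ^ 2) 2, mul_pow, e]
    ring
  rw [h1]
  have h8 : (8 : K) ≠ 0 := by norm_num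
  have h4 : (4 : K) ≠ 0 := by norm_num
  have h2 : N / q ^ 6 / (8 * (y * o / q ^ 2 * (q * G / q ^ 4))) = N / (8 * (y * o) * (q * G)) := by
    field_simp
  rw [h2, div_eq_div_iff (by
    exact mul_ne_zero (mul_ne_zero h8 (mul_ne_zero hy ho)) (mul_ne_zero hq hG))
    (pow_ne_zero 2 (mul_ne_zero (mul_ne_zero h4 hq) hG))]
  linear_combination (-16 * q * G * N) * e

lemma pow_dbl (a b : K) (k : ℕ) : ∀ (x y : K) (h : (sw a b).toAffine.Nonsingular x y),
    2 ^ k • (Affine.Point.some x y h : SPt a b) ≠ 0 →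
      (psi a b k).eval x ≠ 0 ∧ ∃ h', 2 ^ k • (Affine.Point.some x y h : SPt a b) =
        .some ((phi a b k).eval x / (psi a b k).eval x)
          (y * (om a b k).eval x / (psi a b k).eval x ^ 2) h' := by
  induction k with
  | zero =>
    intro x y h _
    have h1 : (psi a b 0).eval x = 1 := by simp [psi, dp]
    have h2 : (phi a b 0).eval x = x := by simp [phi, dp]
    have h3 : (om a b 0).eval x = 1 := by simp [om]
    rw [h1, h2, h3]
    refine ⟨one_ne_zero, ?_⟩
    rw [pow_zero, one_smul]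
    exact some_congr h (by simp) (by simp)
  | succ k ih =>
    intro x y h hne
    have e1 : 2 ^ (k + 1) • (Affine.Point.some x y h : SPt a b) =
        2 ^ k • (Affine.Point.some x y h : SPt a b) + 2 ^ k • (Affine.Point.some x y h) := by
      rw [pow_succ, mul_comm, mul_smul, two_smul]
    have hk : 2 ^ k • (Affine.Point.some x y h : SPt a b) ≠ 0 := by
      intro h0
      rw [e1, h0, add_zero] at hne
      exact hne rfl
    obtain ⟨hq, h', e2⟩ := ih x y h hk
    rw [psi_succ, phi_succ, om_succ, e1]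
    rw [e1] at hne
    generalize 2 ^ k • (Affine.Point.some x y h : SPt a b) = Q at *
    generalize (phi a b k).eval x = p at *
    generalize (psi a b k).eval x = q at *
    generalize (om a b k).eval x = o at *
    subst e2
    obtain ⟨hY, h'', e3⟩ := dbl h' hne
    have e4 := sw_eqn.mp h'.1
    have e5 := om_sq (x := x) hq e4
    rw [e3]
    have hyo : y * o ≠ 0 := by
      intro h0
      apply hY
      rw [h0, zero_div]
    have hy := left_ne_zero_of_mul hyo
    have ho := right_ne_zero_of_mul hyo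
    have hG : p ^ 3 + a * p * q ^ 2 + b * q ^ 3 ≠ 0 := by
      intro h0
      rw [h0, mul_zero, ← mul_pow] at e5
      exact hyo ((pow_eq_zero_iff (two_ne_zero)).mp e5)
    have h4 : (4 : K) ≠ 0 := by norm_num
    refine ⟨mul_ne_zero (mul_ne_zero h4 hq) hG, ?_⟩
    apply some_congr
    · exact alg_x hq hy ho hG e5
    · rw [← alg_y (N := p ^ 6 + 5 * a * p ^ 4 * q ^ 2 + 20 * b * p ^ 3 * q ^ 3
        - 5 * a ^ 2 * p ^ 2 * q ^ 4 - 4 * a * b * p * q ^ 5 - (8 * b ^ 2 + a ^ 3) * q ^ 6)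
        hq hy ho hG e5]
      congr 1
      field_simp
      ring

/-- the case of different abscissae -/
lemma alg_add {a b x y y0 p q o X Y : K} (hq : q ≠ 0) (hX : X = p / q)
    (hY : Y = y0 * o / q ^ 2) (hx : x ≠ X) (e : y ^ 2 = x ^ 3 + a * x + b)
    (e5 : y0 ^ 2 * o ^ 2 = q * (p ^ 3 + a * p * q ^ 2 + b * q ^ 3)) :
    let V := snum a b x X (y * Y) / (x - X) ^ 2
    let N := (x * q + p) * (x * p + a * q) + 2 * b * q ^ 2
    let T := 2 * y * y0 * o
    V * (x * q - p) ^ 2 = N - T ∧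
      V * (N + T) = (x * p - a * q) ^ 2 - 4 * b * q * (x * q + p) ∧
      ((x * q - p) ^ 2 ≠ 0 ∨ N + T ≠ 0) := by
  intro V N T
  have h1 : x * q - p ≠ 0 := by
    intro h
    apply hx
    rw [hX, eq_div_iff hq]
    linear_combination h
  have h2 : V * (x * q - p) ^ 2 = N - T := by
    simp only [V, N, T, snum, hX, hY]
    have h3 : x - p / q = (x * q - p) / q := by
      field_simp
    rw [h3]
    field_simp
  refine ⟨h2, ?_, Or.inl (pow_ne_zero 2 h1)⟩
  have h4 : (N - T) * (N + T) =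
      (x * q - p) ^ 2 * ((x * p - a * q) ^ 2 - 4 * b * q * (x * q + p)) := by
    simp only [N, T]
    linear_combination (-4 * y0 ^ 2 * o ^ 2) * e - 4 * (x ^ 3 + a * x + b) * e5
  have h5 : (x * q - p) ^ 2 * (V * (N + T)) =
      (x * q - p) ^ 2 * ((x * p - a * q) ^ 2 - 4 * b * q * (x * q + p)) := by
    rw [← h4, ← h2]
    ring
  exact mul_left_cancel₀ (pow_ne_zero 2 h1) h5

/-- the case of equal points -/
lemma alg_dbl {a b x y y0 p q o Y : K} (hq : q ≠ 0) (hx : x = p / q) (hy : y ≠ 0)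
    (hY : Y = y0 * o / q ^ 2) (hyY : Y = y) (e : y ^ 2 = x ^ 3 + a * x + b) :
    let V := (x ^ 4 - 2 * a * x ^ 2 - 8 * b * x + a ^ 2) / (4 * y ^ 2)
    let N := (x * q + p) * (x * p + a * q) + 2 * b * q ^ 2
    let T := 2 * y * y0 * o
    V * (x * q - p) ^ 2 = N - T ∧
      V * (N + T) = (x * p - a * q) ^ 2 - 4 * b * q * (x * q + p) ∧
      ((x * q - p) ^ 2 ≠ 0 ∨ N + T ≠ 0) := by
  intro V N T
  have hp : p = x * q := by
    rw [hx]
    field_simp
  have ho : y0 * o = y * q ^ 2 := by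
    rw [← hyY, hY]
    field_simp
  have hN : N = 2 * q ^ 2 * y ^ 2 := by
    simp only [N, hp, e]
    ring
  have hT : T = 2 * q ^ 2 * y ^ 2 := by
    simp only [T]
    linear_combination (2 * y) * ho
  refine ⟨?_, ?_, Or.inr ?_⟩
  · rw [hN, hT, hp]
    ring
  · rw [hN, hT, hp]
    simp only [V]
    field_simp
    ring
  · rw [hN, hT]
    have h4 : (4 : K) ≠ 0 := by norm_num
    have : 2 * q ^ 2 * y ^ 2 + 2 * q ^ 2 * y ^ 2 = 4 * (q ^ 2 * y ^ 2) := by ring
    rw [this]
    exact mul_ne_zero h4 (mul_ne_zero (pow_ne_zero 2 hq) (pow_ne_zero 2 hy))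

theorem t_DBL : S_DBL := by
  intro K _ _ _ a b hD
  refine ⟨fun k x y h hne => pow_dbl a b k x y h hne, ?_⟩
  intro k x y x0 y0 h h0 h1 h2
  obtain ⟨hq, h', e⟩ := pow_dbl a b k x0 y0 h0 h1
  have e1 := sw_eqn.mp h.1
  have e4 := sw_eqn.mp h'.1
  have e5 := om_sq (x := x) hq e4
  simp only
  rw [e] at h2 ⊢
  generalize (phi a b k).eval x0 = p at *
  generalize (psi a b k).eval x0 = q at *
  generalize (om a b k).eval x0 = o at *
  by_cases hx : x = p / q
  · have hyy : y = y0 * o / q ^ 2 ∨ y = -(y0 * o / q ^ 2) := by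
      apply sq_eq_sq_iff_eq_or_eq_neg.mp
      rw [e1, e4, hx]
    rcases hyy with hy | hy
    · have e6 : (Affine.Point.some (p / q) (y0 * o / q ^ 2) h' : SPt a b) =
          Affine.Point.some x y h := by
        obtain ⟨h3, h4⟩ := some_congr h hx hy
        exact h4.symm
      rw [e6] at h2 ⊢
      obtain ⟨hy0, h3, h4⟩ := dbl h h2
      exact ⟨_, _, h3, h4, alg_dbl hq hx hy0 rfl hy.symm e1⟩
    · exfalso
      apply h2
      apply Affine.Point.add_of_Y_eq hx
      simp only [Affine.negY, sw]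
      rw [hy]
      ring
  · refine ⟨_, _, Affine.nonsingular_add h h' (fun hxy => hx hxy.1),
      Affine.Point.add_of_X_ne hx, ?_⟩
    have hV : (sw a b).toAffine.addX x (p / q)
        ((sw a b).toAffine.slope x (p / q) y (y0 * o / q ^ 2)) =
        snum a b x (p / q) (y * (y0 * o / q ^ 2)) / (x - p / q) ^ 2 := by
      generalize p / q = X at *
      generalize y0 * o / q ^ 2 = Y at *
      rw [Affine.slope_of_X_ne hx, Affine.addX]
      have hx' : x - X ≠ 0 := sub_ne_zero.mpr hx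
      simp only [sw, snum]
      field_simp
      ring_nf
      ring_nf at e1 e4
      linear_combination e1 + e4
    rw [hV]
    exact alg_add hq rfl rfl hx e1 e5

end Pool.Agent.J4H49.GC
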